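import Pool.Agent.H316.EM.Stm

/-!
# EM A1 (helper286): finite quotients of the module `AA`
-/

set_option autoImplicit false

namespace Pool.Agent.H286

open Pool.Agent.H316.EM

namespace EMA1

/-- submodules stable under `B` are stable under `FB` -/
theorem stab (W : Submodule (ZMod 2) KK) (hW : ∀ b, ∀ a ∈ W, mB b a ∈ W) (f : FB) (a : KK)
    (ha : a ∈ W) : algebraMap FB KK f * a ∈ W := by
  induction f using MonoidAlgebra.induction_linear with
  | zero => rw [map_zero, zero_mul]; exact W.zero_mem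
  | add f g hf hg => rw [map_add, add_mul]; exact W.add_mem hf hg
  | single b c =>
    have h1 : MonoidAlgebra.single b c = c • eb b := by
      simp [eb, MonoidAlgebra.of_apply]
    rw [h1]
    rcases (by decide : ∀ c : ZMod 2, c = 0 ∨ c = 1) c with rfl | rfl
    · rw [zero_smul, map_zero, zero_mul]; exact W.zero_mem
    · rw [one_smul, ← mB_apply]; exact hW b a ha

/-- the product `ck 0 * ... * ck (K - 1)` -/
noncomputable def gk (K : ℕ) : FB := ∏ j ∈ Finset.range K, ck j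

theorem rF_ck (j : ℕ) : rF th (ck j) = ck (j + 1) := by
  rw [ck, ck, map_sub, map_one, rF_eb, pow_succ']
  rfl

theorem rK_pow (K : ℕ) (y : KK) : rK (th ^ (K + 1)) y = rK th (rK (th ^ K) y) := by
  obtain ⟨a, b, hb, rfl⟩ := IsFractionRing.div_surjective (A := FB) y
  simp only [map_div₀, rK_algebraMap]
  have h : ∀ x : FB, rF (th ^ (K + 1)) x = rF th (rF (th ^ K) x) := by
    intro x
    induction x using MonoidAlgebra.induction_linear with
    | zero => simp
    | add f g hf hg => simp only [map_add, hf, hg]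
    | single b c =>
      have h1 : MonoidAlgebra.single b c = c • eb b := by
        simp [eb, MonoidAlgebra.of_apply]
      rw [h1]
      rcases (by decide : ∀ c : ZMod 2, c = 0 ∨ c = 1) c with rfl | rfl
      · simp
      · simp only [one_smul, rF_eb, pow_succ']
        rfl
  rw [h, h]

theorem gk_tA (K : ℕ) (y : KK) : algebraMap FB KK (gk K) * (tA ^ K) y = rK (th ^ K) y := by
  induction K with
  | zero =>
    have : rK (th ^ 0) y = y := by
      obtain ⟨a, b, hb, rfl⟩ := IsFractionRing.div_surjective (A := FB) y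
      simp only [map_div₀, rK_algebraMap]
      have h : ∀ x : FB, rF (th ^ 0) x = x := by
        intro x
        induction x using MonoidAlgebra.induction_linear with
        | zero => simp
        | add f g hf hg => simp only [map_add, hf, hg]
        | single b c =>
          have h1 : MonoidAlgebra.single b c = c • eb b := by
            simp [eb, MonoidAlgebra.of_apply]
          rw [h1]
          rcases (by decide : ∀ c : ZMod 2, c = 0 ∨ c = 1) c with rfl | rfl
          · simp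
          · simp only [one_smul, rF_eb, pow_zero]
            rfl
      rw [h, h]
    rw [this]
    simp [gk]
  | succ K ih =>
    rw [rK_pow, ← ih, map_mul, rK_algebraMap]
    have h1 : gk (K + 1) = ck 0 * rF th (gk K) := by
      unfold gk
      rw [Finset.prod_range_succ', map_prod, mul_comm]
      simp only [rF_ck]
    rw [h1, map_mul, pow_succ', LinearEquiv.mul_apply, tA_apply]
    have := ck_ne 0
    field_simp

theorem rK_FBK (K : ℕ) (y : KK) (hy : y ∈ FBK) : ∃ y' ∈ FBK, rK (th ^ K) y' = y := by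
  obtain ⟨z, rfl⟩ := (mem_FBK y).1 hy
  refine ⟨algebraMap FB KK ((rF (th ^ K)).symm z), (mem_FBK _).2 ⟨_, rfl⟩, ?_⟩
  rw [rK_algebraMap, RingEquiv.apply_symm_apply]

/-- multiplication by an element of `FB` on a stable submodule -/
noncomputable def mul (W : Submodule (ZMod 2) KK) (hW : ∀ b, ∀ a ∈ W, mB b a ∈ W) (f : FB) :
    W →ₗ[ZMod 2] W where
  toFun a := ⟨algebraMap FB KK f * a.1, stab W hW f a.1 a.2⟩
  map_add' _ _ := Subtype.ext (mul_add _ _ _)
  map_smul' _ _ := Subtype.ext (mul_smul_comm _ _ _)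

theorem tA_iff (k : ℕ) (C : Submodule (ZMod 2) KK) (h : ∀ a, a ∈ C ↔ (tA ^ k) a ∈ C) (n : ℕ) :
    ∀ a, a ∈ C ↔ (tA ^ (k * n)) a ∈ C := by
  induction n with
  | zero => intro a; simp
  | succ n ih =>
    intro a
    rw [mul_add, mul_one, pow_add, LinearEquiv.mul_apply, ← ih, ← h]

theorem inv_FBK (hU : S_AAUN) (n : ℕ) : ∀ y ∈ FBK, (tA⁻¹ ^ n : Au KK) y ∈ FBK := by
  induction n with
  | zero => intro y hy; simpa using hy
  | succ n ih =>
    intro y hy
    rw [pow_succ', LinearEquiv.mul_apply]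
    exact hU.2.1 _ (ih y hy)

theorem tA_inv (n : ℕ) (y : KK) : (tA ^ n) ((tA⁻¹ ^ n : Au KK) y) = y := by
  rw [← LinearEquiv.mul_apply, inv_pow, mul_inv_cancel]
  rfl

theorem AA_pow (hU : S_AAUN) (n : ℕ) : ∀ a, a ∈ AA ↔ (tA ^ n) a ∈ AA := by
  have := tA_iff 1 AA (fun a => by rw [pow_one]; exact hU.2.2.2.1 a) n
  simpa only [one_mul] using this

theorem FBK_le (hU : S_AAUN) : FBK ≤ AA := fun y hy => (hU.1 y).2 ⟨0, y, hy, by simp⟩

/-- the chain of submodules -/
noncomputable def P (C : Submodule (ZMod 2) KK) (K n : ℕ) : Submodule (ZMod 2) KK :=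
  FBK.map ((tA ^ (K * n) : Au KK) : KK →ₗ[ZMod 2] KK) ⊔ C

theorem mem_P (C : Submodule (ZMod 2) KK) (K n : ℕ) (x : KK) :
    x ∈ P C K n ↔ ∃ y ∈ FBK, x - (tA ^ (K * n)) y ∈ C := by
  unfold P
  rw [Submodule.mem_sup]
  constructor
  · rintro ⟨_, ⟨y, hy, rfl⟩, z, hz, rfl⟩
    exact ⟨y, hy, by simpa using hz⟩
  · rintro ⟨y, hy, hz⟩
    exact ⟨_, ⟨y, hy, rfl⟩, _, hz, by simp⟩

theorem P_mono (hU : S_AAUN) (C : Submodule (ZMod 2) KK) (K n : ℕ) : P C K n ≤ P C K (n + 1) := by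
  intro x hx
  rw [mem_P] at hx ⊢
  obtain ⟨y, hy, hz⟩ := hx
  refine ⟨(tA⁻¹ ^ K : Au KK) y, inv_FBK hU K y hy, ?_⟩
  rw [mul_add, mul_one, pow_add, LinearEquiv.mul_apply, tA_inv]
  exact hz

theorem P_le (hU : S_AAUN) (C : Submodule (ZMod 2) KK) (hC : C ≤ AA) (K n : ℕ) :
    P C K n ≤ AA := by
  intro x hx
  rw [mem_P] at hx
  obtain ⟨y, hy, hz⟩ := hx
  have h1 : (tA ^ (K * n)) y ∈ AA := (AA_pow hU _ y).1 (FBK_le hU hy)
  have := AA.add_mem (hC hz) h1
  simpa using this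

theorem le_P (C : Submodule (ZMod 2) KK) (K n : ℕ) : C ≤ P C K n := le_sup_right

/-- the chain becomes stationary -/
theorem stationary (hU : S_AAUN) (C : Submodule (ZMod 2) KK) (hC : C ≤ AA) (hfin : Fi C AA)
    (K : ℕ) : ∃ n, P C K (n + 1) ≤ P C K n := by
  have hne : ∀ n, (P C K n).toAddSubgroup.relIndex AA.toAddSubgroup ≠ 0 := fun n =>
    fun h0 => hfin (Nat.eq_zero_of_zero_dvd (h0 ▸
      AddSubgroup.relIndex_dvd_of_le_left AA.toAddSubgroup (show C.toAddSubgroup ≤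
        (P C K n).toAddSubgroup from le_P C K n)))
  obtain ⟨n, hn⟩ : ∃ n, ∀ m, (P C K n).toAddSubgroup.relIndex AA.toAddSubgroup ≤
      (P C K m).toAddSubgroup.relIndex AA.toAddSubgroup := by
    let f : ℕ → ℕ := fun n => (P C K n).toAddSubgroup.relIndex AA.toAddSubgroup
    obtain ⟨n, hn⟩ := (WellFounded.has_min (measure f).wf Set.univ ⟨0, trivial⟩)
    exact ⟨n, fun m => not_lt.1 (hn.2 m trivial)⟩
  refine ⟨n, ?_⟩
  have h1 := AddSubgroup.relIndex_mul_relIndex (P C K n).toAddSubgroup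
    (P C K (n + 1)).toAddSubgroup AA.toAddSubgroup (P_mono hU C K n) (P_le hU C hC K (n + 1))
  have h2 := hn (n + 1)
  have h3 := hne n
  have h4 := hne (n + 1)
  have h5 : (P C K n).toAddSubgroup.relIndex (P C K (n + 1)).toAddSubgroup = 1 := by
    have h6 : (P C K n).toAddSubgroup.relIndex (P C K (n + 1)).toAddSubgroup ≠ 0 := by
      intro h
      rw [h, zero_mul] at h1
      exact h3 h1.symm
    by_contra h7
    have h8 : 2 ≤ (P C K n).toAddSubgroup.relIndex (P C K (n + 1)).toAddSubgroup := by omega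
    have h9 := Nat.mul_le_mul_right
      ((P C K (n + 1)).toAddSubgroup.relIndex AA.toAddSubgroup) h8
    have h10 : 0 < (P C K (n + 1)).toAddSubgroup.relIndex AA.toAddSubgroup :=
      Nat.pos_of_ne_zero h4
    omega
  exact AddSubgroup.relIndex_eq_one.1 h5

/-- `FBK + C = AA` -/
theorem full (hU : S_AAUN) (C : Submodule (ZMod 2) KK) (hC : C ≤ AA) (hfin : Fi C AA)
    (K : ℕ) (hK : 0 < K) (ht : ∀ a, a ∈ C ↔ (tA ^ K) a ∈ C) (x : KK) (hx : x ∈ AA) :
    ∃ y ∈ FBK, x - y ∈ C := by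
  obtain ⟨n, hn⟩ := stationary hU C hC hfin K
  have h1 : ∀ y ∈ FBK, ∃ y' ∈ FBK, (tA ^ K) y - y' ∈ C := by
    intro y hy
    have h2 : (tA ^ (K * (n + 1))) y ∈ P C K (n + 1) := by
      rw [mem_P]; exact ⟨y, hy, by simp⟩
    obtain ⟨y', hy', h3⟩ := (mem_P C K n _).1 (hn h2)
    refine ⟨y', hy', ?_⟩
    rw [tA_iff K C ht n, map_sub, ← LinearEquiv.mul_apply, ← pow_add]
    rw [mul_add, mul_one] at h3
    exact h3
  have h4 : ∀ m, ∀ y ∈ FBK, ∃ y' ∈ FBK, (tA ^ (K * m)) y - y' ∈ C := by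
    intro m
    induction m with
    | zero => intro y hy; exact ⟨y, hy, by simp⟩
    | succ m ih =>
      intro y hy
      obtain ⟨y', hy', h5⟩ := ih y hy
      obtain ⟨y'', hy'', h6⟩ := h1 y' hy'
      refine ⟨y'', hy'', ?_⟩
      rw [ht, map_sub, ← LinearEquiv.mul_apply, ← pow_add] at h5
      have e : (tA ^ (K * (m + 1))) y - y'' =
          ((tA ^ (K + K * m)) y - (tA ^ K) y') + ((tA ^ K) y' - y'') := by
        rw [mul_add, mul_one, add_comm (K * m) K]; abel
      rw [e]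
      exact C.add_mem h5 h6
  obtain ⟨m, y, hy, rfl⟩ := (hU.1 x).1 hx
  obtain ⟨y', hy', h5⟩ := h4 m ((tA⁻¹ ^ (K * m - m) : Au KK) y) (inv_FBK hU _ y hy)
  refine ⟨y', hy', ?_⟩
  have hle : m ≤ K * m := Nat.le_mul_of_pos_left m hK
  have e : (tA ^ (K * m)) ((tA⁻¹ ^ (K * m - m) : Au KK) y) = (tA ^ m) y := by
    conv_lhs => rw [← Nat.add_sub_cancel' hle, pow_add, LinearEquiv.mul_apply,
      Nat.add_sub_cancel' hle, tA_inv]
  rw [e] at h5
  exact h5

/-- multiplication by `gk K` is injective on `AA / C` -/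
theorem inj (hU : S_AAUN) (C : Submodule (ZMod 2) KK) (hC : C ≤ AA) (hfin : Fi C AA)
    (hB : ∀ b, ∀ a ∈ C, mB b a ∈ C) (K : ℕ) (hK : 0 < K) (ht : ∀ a, a ∈ C ↔ (tA ^ K) a ∈ C)
    (a : KK) (ha : a ∈ AA) (h : algebraMap FB KK (gk K) * a ∈ C) : a ∈ C := by
  let C' : Submodule (ZMod 2) AA := C.comap AA.subtype
  let φ : AA →ₗ[ZMod 2] AA := mul AA hU.2.2.1 (gk K)
  have hle : C' ≤ C'.comap φ := fun x hx => stab C hB (gk K) x.1 hx
  let ψ := C'.mapQ C' φ hle
  have hF : Finite (AA ⧸ C') := by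
    have h1 : (C'.toAddSubgroup).index ≠ 0 := hfin
    have h2 : Fintype (AA ⧸ C'.toAddSubgroup) := AddSubgroup.fintypeOfIndexNeZero h1
    have h3 : Finite (AA ⧸ C'.toAddSubgroup) := inferInstance
    exact h3
  have hsurj : Function.Surjective ψ := by
    intro q
    obtain ⟨x, rfl⟩ := Submodule.Quotient.mk_surjective C' q
    obtain ⟨y, hy, hxy⟩ := full hU C hC hfin K hK ht x.1 x.2
    obtain ⟨y', hy', rfl⟩ := rK_FBK K y hy
    refine ⟨Submodule.Quotient.mk ⟨(tA ^ K) y', (AA_pow hU K y').1 (FBK_le hU hy')⟩, ?_⟩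
    have e : ψ (Submodule.Quotient.mk ⟨(tA ^ K) y', (AA_pow hU K y').1 (FBK_le hU hy')⟩) =
        Submodule.Quotient.mk (φ ⟨(tA ^ K) y', (AA_pow hU K y').1 (FBK_le hU hy')⟩) := rfl
    rw [e, eq_comm, Submodule.Quotient.eq]
    show x.1 - algebraMap FB KK (gk K) * (tA ^ K) y' ∈ C
    rw [gk_tA]
    exact hxy
  have hinj := Finite.injective_iff_surjective.2 hsurj
  have h1 : ψ (Submodule.Quotient.mk ⟨a, ha⟩) = 0 := by
    have e : ψ (Submodule.Quotient.mk ⟨a, ha⟩) = Submodule.Quotient.mk (φ ⟨a, ha⟩) := rfl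
    rw [e, Submodule.Quotient.mk_eq_zero]
    exact h
  have h2 : (Submodule.Quotient.mk ⟨a, ha⟩ : AA ⧸ C') = 0 := by
    apply hinj
    rw [h1, map_zero]
  rw [Submodule.Quotient.mk_eq_zero] at h2
  exact h2

end EMA1

/-- **A1** -/
theorem em_a1 (hU : S_AAUN) : S_A1 := by
  intro k hk C hC hfin hB ht i a ha h
  have hK : 0 < k * (i + 1) := Nat.mul_pos hk (Nat.succ_pos i)
  refine EMA1.inj hU C hC hfin hB (k * (i + 1)) hK (EMA1.tA_iff k C ht (i + 1)) a ha ?_
  have hi : i ∈ Finset.range (k * (i + 1)) := by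
    rw [Finset.mem_range]
    calc i < i + 1 := Nat.lt_succ_self i
      _ ≤ k * (i + 1) := Nat.le_mul_of_pos_left _ hk
  have e : EMA1.gk (k * (i + 1)) = (∏ j ∈ (Finset.range (k * (i + 1))).erase i, ck j) * ck i := by
    unfold EMA1.gk
    rw [Finset.prod_erase_mul _ _ hi]
  rw [e, map_mul, mul_assoc]
  exact EMA1.stab C hB _ _ h

end Pool.Agent.H286
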